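import Pool.Agent.H954Z.FT.St

/-! Coefficient fields of complete local rings of characteristic `p`. -/

set_option autoImplicit false

namespace Pool.Agent.H704Z.FT

open Pool.Agent.H954Z.FT IsLocalRing Polynomial

theorem section_of_pow {B k : Type} [CommRing B] [Field k] (p : ℕ) [Fact p.Prime] [CharP B p]
    (π : B →+* k) (hπ : Function.Surjective π) (hker : ∀ x, π x = 0 → x ^ p = 0) :
    ∃ s : k →+* B, ∀ a, π (s a) = a := by
  have hp : p.Prime := Fact.out
  let φ : k →+* B := π.liftOfSurjective hπ ⟨frobenius B p, fun x hx => hker x hx⟩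
  have hφ : ∀ b, φ (π b) = b ^ p := fun b => π.liftOfRightInverse_comp_apply _ _ _ b
  have hπφ : ∀ a, π (φ a) = a ^ p := fun a => by
    obtain ⟨b, rfl⟩ := hπ a
    rw [hφ, map_pow]
  let S : Set (Subring B) := {C | φ.range ≤ C ∧ ∀ x ∈ C, π x = 0 → x = 0}
  have h0 : φ.range ∈ S := by
    refine ⟨le_rfl, ?_⟩
    rintro _ ⟨a, rfl⟩ h
    rw [hπφ] at h
    rw [pow_eq_zero_iff hp.ne_zero] at h
    rw [h, map_zero]
  obtain ⟨C, -, hC⟩ := zorn_le_nonempty₀ S (fun c hc hch y hy => by
    refine ⟨sSup c, ⟨(hc hy).1.trans (le_sSup hy), fun x hx => ?_⟩, fun z hz => le_sSup hz⟩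
    obtain ⟨D, hD, hxD⟩ := (Subring.mem_sSup_of_directedOn ⟨y, hy⟩ hch.directedOn).1 hx
    exact (hc hD).2 x hxD) _ h0
  obtain ⟨hC1, hC2⟩ := hC.prop
  let ρ : C →+* k := π.comp C.subtype
  have hinj : Function.Injective ρ :=
    (injective_iff_map_eq_zero ρ).2 fun x hx => Subtype.ext (hC2 x.1 x.2 hx)
  have hF : IsField C := by
    refine ⟨⟨0, 1, fun h => zero_ne_one (α := k) (by simpa using congrArg ρ h)⟩, mul_comm, ?_⟩
    intro c hc
    have h1 : ρ c ≠ 0 := fun h => hc (hinj (by rw [h, map_zero]))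
    refine ⟨c ^ (p - 1) * ⟨φ (ρ c)⁻¹, hC1 ⟨_, rfl⟩⟩, hinj ?_⟩
    rw [← mul_assoc, ← pow_succ', Nat.sub_add_cancel hp.pos, map_mul, map_pow, map_one]
    show ρ c ^ p * π (φ (ρ c)⁻¹) = 1
    rw [hπφ, ← mul_pow, mul_inv_cancel₀ h1, one_pow]
  have hsurj : Function.Surjective ρ := by
    intro a
    by_contra hna
    push Not at hna
    obtain ⟨b, rfl⟩ := hπ a
    have : CharP k p := by
      refine (CharP.charP_iff_prime_eq_zero hp).2 ?_
      rw [← map_natCast π, CharP.cast_eq_zero, map_zero]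
    let c0 : C := ⟨φ (π b), hC1 ⟨_, rfl⟩⟩
    have key : ∀ f : C[X], f.eval₂ ρ (π b) = 0 → (X ^ p - Polynomial.C c0) ∣ f := by
      let := hF.toField
      have hirr : Irreducible (X ^ p - Polynomial.C c0 : C[X]) := by
        refine X_pow_sub_C_irreducible_of_prime hp fun c hc => hna c ?_
        have h1 : ρ c ^ p = π b ^ p := by
          rw [← map_pow, hc]
          exact hπφ _
        exact frobenius_inj k p h1
      intro f hf
      rcases hirr.isCoprime_or_dvd f with h | h
      · obtain ⟨u, v, huv⟩ := h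
        have := congrArg (eval₂ ρ (π b)) huv
        rw [eval₂_add, eval₂_mul, eval₂_mul, hf, eval₂_sub, eval₂_X_pow, eval₂_C, eval₂_one,
          show ρ c0 = π b ^ p from hπφ _] at this
        simp at this
      · exact h
    let C' : Subring B := (eval₂RingHom C.subtype b).range
    have hle : C ≤ C' := fun x hx => ⟨Polynomial.C ⟨x, hx⟩, by simp⟩
    have hC' : C' ∈ S := by
      refine ⟨hC1.trans hle, ?_⟩
      rintro _ ⟨f, rfl⟩ h
      have h1 : f.eval₂ ρ (π b) = 0 := by
        rw [← h]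
        exact (hom_eval₂ f C.subtype π b).symm
      obtain ⟨g, rfl⟩ := key f h1
      have h2 : (eval₂RingHom C.subtype b) (X ^ p - Polynomial.C c0) = 0 := by
        simp [c0, hφ]
      rw [map_mul, h2, zero_mul]
    have hb : b ∈ C := hC.le_of_ge hC' hle ⟨X, by simp⟩
    exact hna ⟨b, hb⟩ rfl
  let e := RingEquiv.ofBijective ρ ⟨hinj, hsurj⟩
  exact ⟨C.subtype.comp e.symm.toRingHom, fun a => e.apply_symm_apply a⟩

theorem formallySmooth (p : ℕ) [Fact p.Prime] (k : Type) [Field k] [Algebra (ZMod p) k] :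
    Algebra.FormallySmooth (ZMod p) k := by
  have hp : p.Prime := Fact.out
  let f : MvPolynomial k (ZMod p) →ₐ[ZMod p] k := MvPolynomial.aeval id
  have hf : Function.Surjective f := fun a => ⟨MvPolynomial.X a, by simp [f]⟩
  have surj : Function.Surjective f.kerSquareLift :=
    Ideal.Quotient.lift_surjective_of_surjective _ _ hf
  have sqz : RingHom.ker f.kerSquareLift.toRingHom ^ 2 = ⊥ := by
    rw [AlgHom.ker_kerSquareLift, Ideal.cotangentIdeal_square]
  have : Nontrivial (MvPolynomial k (ZMod p) ⧸ RingHom.ker f.toRingHom ^ 2) :=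
    f.kerSquareLift.toRingHom.domain_nontrivial
  have : CharP (MvPolynomial k (ZMod p) ⧸ RingHom.ker f.toRingHom ^ 2) p :=
    charP_of_injective_algebraMap (algebraMap (ZMod p) _).injective p
  obtain ⟨s, hs⟩ := section_of_pow p f.kerSquareLift.toRingHom surj fun x hx => by
    have h : x ^ 2 ∈ RingHom.ker f.kerSquareLift.toRingHom ^ 2 := Ideal.pow_mem_pow hx 2
    rw [sqz, Ideal.mem_bot] at h
    exact pow_eq_zero_of_le hp.two_le h
  refine Algebra.FormallySmooth.of_split f ⟨s, fun r => ?_⟩ (AlgHom.ext hs)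
  exact congr($(RingHom.ext_zmod (s.comp (algebraMap (ZMod p) k)) (algebraMap (ZMod p) _)) r)

theorem thm_coeff : S_coeff := by
  intro T _ _ _ p _ _
  let : Algebra (ZMod p) T := ZMod.algebra T p
  have : Algebra.FormallySmooth (ZMod p) (T ⧸ maximalIdeal T) :=
    formallySmooth p (ResidueField T)
  obtain ⟨g, hg⟩ := Algebra.FormallySmooth.exists_mkₐ_comp_eq_of_isAdicComplete
    (R := ZMod p) (I := maximalIdeal T) (AlgHom.id (ZMod p) (T ⧸ maximalIdeal T))
  exact ⟨g.toRingHom, fun a => congr($hg a)⟩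

end Pool.Agent.H704Z.FT
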